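import Pool.Agent.Q196.Ienv

/-!
# The bounded part of the (I)-envelope of a subspace need not be norm-dense

There is a linear subspace `Y` of the dual `ℓ_∞` of `ℓ_1` (real or complex) such that
`⋃ n, Ienv (Y ∩ n B)` is not norm-dense in `Ienv Y`.

The space is `ℓ_1(ℕ × ℕ × Bool)`.  Let `U` be a free ultrafilter and let `Y` consist of all `ξ`
such that for every `k` the numbers `ξ (k, j, false)` converge for `j → ∞`, and the limit is
`1 / (k + 1)` times the limit of `ξ (k, j, true)` along `U`.  Let `η (k, j, false) = 1` and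
`η (k, j, true) = 0`.  On `Y ∩ n B` the limit of `ξ (k, j, false)` is small for large `k`, so `η` has
distance at least `1 / 2` from `Ienv (Y ∩ n B)`.  But no bounded sequence of `ℓ_1` separates `η`
from `Y`: this is shown by Baire's theorem in `ℕ → ℕ`, applied to the indicator functions of sets
with finite rows, and Baire's theorem in `ℕ → Bool`, applied to the ultrafilter `U`.
-/

set_option autoImplicit false

open Filter Topology Set

namespace Pool.Agent.Results.MP_a5b52c_an.SubspaceNotDense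

open Pool.Agent.Q196.IEnvelope

variable {𝕜 : Type} [RCLike 𝕜]

/-- The index set. -/
abbrev Idx : Type := ℕ × ℕ × Bool

/-- The Banach space `ℓ_1`. -/
abbrev L1 (𝕜 : Type) [RCLike 𝕜] : Type := lp (fun _ : Idx => 𝕜) 1

lemma summ (x : L1 𝕜) : Summable (fun i => ‖x i‖) := by
  have h := (memℓp_gen_iff (p := 1) (by norm_num)).1 (lp.memℓp x)
  simpa using h

lemma norm_eq (x : L1 𝕜) : ‖x‖ = ∑' i, ‖x i‖ := by
  have h := lp.norm_eq_tsum_rpow (p := 1) (by norm_num) x
  simpa using h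

lemma summ_mul (f : Idx → ℝ) {C : ℝ} (hf : ∀ i, |f i| ≤ C) (x : L1 𝕜) :
    Summable (fun i => ((f i : ℝ) : 𝕜) * x i) := by
  refine Summable.of_norm_bounded (g := fun i => C * ‖x i‖) ((summ x).mul_left C) fun i => ?_
  rw [norm_mul, RCLike.norm_ofReal]
  exact mul_le_mul_of_nonneg_right (hf i) (norm_nonneg _)

/-- The functional on `ℓ_1` with the bounded coefficients `f`. -/
noncomputable def fn (f : Idx → ℝ) (C : ℝ) (hf : ∀ i, |f i| ≤ C) : StrongDual 𝕜 (L1 𝕜) :=
  LinearMap.mkContinuous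
    { toFun := fun x => ∑' i, ((f i : ℝ) : 𝕜) * x i
      map_add' := fun x y => by
        rw [← (summ_mul f hf x).tsum_add (summ_mul f hf y)]
        refine tsum_congr fun i => ?_
        simp [mul_add]
      map_smul' := fun c x => by
        simp only [RingHom.id_apply, smul_eq_mul]
        rw [← tsum_mul_left]
        refine tsum_congr fun i => ?_
        simp only [lp.coeFn_smul, Pi.smul_apply, smul_eq_mul]
        ring } C (fun x => by
      simp only [LinearMap.coe_mk, AddHom.coe_mk]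
      rw [norm_eq, ← tsum_mul_left]
      refine tsum_of_norm_bounded ((summ x).mul_left C).hasSum fun i => ?_
      rw [norm_mul, RCLike.norm_ofReal]
      exact mul_le_mul_of_nonneg_right (hf i) (norm_nonneg _))

lemma fn_apply (f : Idx → ℝ) (C : ℝ) (hf : ∀ i, |f i| ≤ C) (x : L1 𝕜) :
    fn f C hf x = ∑' i, ((f i : ℝ) : 𝕜) * x i := rfl

/-- The real part of the value of a functional. -/
noncomputable def S (f : Idx → ℝ) (x : L1 𝕜) : ℝ := ∑' i, f i * RCLike.re (x i)

lemma summ_re (f : Idx → ℝ) {C : ℝ} (hf : ∀ i, |f i| ≤ C) (x : L1 𝕜) :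
    Summable (fun i => f i * RCLike.re (x i)) := by
  refine Summable.of_norm_bounded (g := fun i => C * ‖x i‖) ((summ x).mul_left C) fun i => ?_
  rw [Real.norm_eq_abs, abs_mul]
  exact mul_le_mul (hf i) (RCLike.abs_re_le_norm _) (abs_nonneg _) ((abs_nonneg _).trans (hf i))

lemma re_fn (f : Idx → ℝ) (C : ℝ) (hf : ∀ i, |f i| ≤ C) (x : L1 𝕜) :
    RCLike.re (fn f C hf x) = S f x := by
  rw [fn_apply, S]
  have h := (RCLike.reCLM (K := 𝕜)).map_tsum (summ_mul f hf x)
  simp only [RCLike.reCLM_apply] at h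
  rw [h]
  refine tsum_congr fun i => ?_
  rw [RCLike.re_ofReal_mul]

lemma abs_S_le (f : Idx → ℝ) {C : ℝ} (hf : ∀ i, |f i| ≤ C) (x : L1 𝕜) : |S f x| ≤ C * ‖x‖ := by
  rw [norm_eq, ← tsum_mul_left, S, ← Real.norm_eq_abs]
  refine tsum_of_norm_bounded ((summ x).mul_left C).hasSum fun i => ?_
  rw [Real.norm_eq_abs, abs_mul]
  exact mul_le_mul (hf i) (RCLike.abs_re_le_norm _) (abs_nonneg _) ((abs_nonneg _).trans (hf i))

/-- The unit vectors. -/
noncomputable def e (i : Idx) : L1 𝕜 := lp.single 1 i 1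

lemma norm_e (i : Idx) : ‖(e i : L1 𝕜)‖ = 1 := by
  rw [e, lp.norm_single (by norm_num)]
  exact norm_one

lemma fn_e (f : Idx → ℝ) (C : ℝ) (hf : ∀ i, |f i| ≤ C) (i : Idx) :
    fn f C hf (e i : L1 𝕜) = ((f i : ℝ) : 𝕜) := by
  rw [fn_apply, tsum_eq_single i]
  · simp [e]
  · intro j hj
    simp [e, hj]

/-- The subspace `Y`: for every `k` the limit of `ξ (k, j, false)` for `j → ∞` exists and is
`1 / (k + 1)` times the limit of `ξ (k, j, true)` along a free ultrafilter. -/
def Y (𝕜 : Type) [RCLike 𝕜] : Submodule 𝕜 (StrongDual 𝕜 (L1 𝕜)) where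
  carrier := {ξ | ∀ k : ℕ, ∃ l : 𝕜,
    Tendsto (fun j : ℕ => ξ (e (k, j, false))) atTop (𝓝 ((((k : 𝕜) + 1)⁻¹) * l)) ∧
    Tendsto (fun j : ℕ => ξ (e (k, j, true))) (hyperfilter ℕ : Filter ℕ) (𝓝 l)}
  add_mem' := by
    intro ξ ζ hξ hζ k
    obtain ⟨l, h1, h2⟩ := hξ k
    obtain ⟨l', h1', h2'⟩ := hζ k
    refine ⟨l + l', ?_, h2.add h2'⟩
    rw [mul_add]
    exact h1.add h1'
  zero_mem' := by
    intro k
    refine ⟨0, ?_, ?_⟩ <;> simp
  smul_mem' := by
    intro c ξ hξ k
    obtain ⟨l, h1, h2⟩ := hξ k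
    refine ⟨c * l, ?_, h2.const_mul c⟩
    have h3 := h1.const_mul c
    rwa [show (((k : 𝕜) + 1)⁻¹) * (c * l) = c * ((((k : 𝕜) + 1)⁻¹) * l) by ring]

lemma fn_mem (f : Idx → ℝ) (C : ℝ) (hf : ∀ i, |f i| ≤ C)
    (h : ∀ k : ℕ, ∃ l : ℝ, Tendsto (fun j : ℕ => f (k, j, false)) atTop (𝓝 (((k : ℝ) + 1)⁻¹ * l)) ∧
      Tendsto (fun j : ℕ => f (k, j, true)) (hyperfilter ℕ : Filter ℕ) (𝓝 l)) :
    (fn f C hf : StrongDual 𝕜 (L1 𝕜)) ∈ Y 𝕜 := by
  intro k
  obtain ⟨l, h1, h2⟩ := h k
  refine ⟨(l : 𝕜), ?_, ?_⟩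
  · simp only [fn_e]
    have h3 := (RCLike.continuous_ofReal (K := 𝕜)).tendsto (((k : ℝ) + 1)⁻¹ * l)
    have h4 := h3.comp h1
    have h5 : (((((k : ℝ) + 1)⁻¹ * l : ℝ)) : 𝕜) = ((k : 𝕜) + 1)⁻¹ * (l : 𝕜) := by
      push_cast
      rfl
    rw [h5] at h4
    exact h4
  · simp only [fn_e]
    exact ((RCLike.continuous_ofReal (K := 𝕜)).tendsto l).comp h2

/-- The coefficients of `η`. -/
def h0 (i : Idx) : ℝ := if i.2.2 = false then 1 else 0

lemma abs_h0 (i : Idx) : |h0 i| ≤ 1 := by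
  unfold h0
  split_ifs <;> simp

/-- The functional `η`. -/
noncomputable def eta (𝕜 : Type) [RCLike 𝕜] : StrongDual 𝕜 (L1 𝕜) := fn h0 1 abs_h0

lemma far {n : ℕ} {ζ : StrongDual 𝕜 (L1 𝕜)} (hζ : ζ ∈ Ienv ((Y 𝕜 : Set _) ∩ Metric.closedBall 0 n)) :
    1 / 4 ≤ ‖ζ - eta 𝕜‖ := by
  by_contra hcon
  push Not at hcon
  rw [mem_Ienv_iff] at hζ
  apply hζ
  refine ⟨fun j => e (2 * n, j, false), fun j => (norm_e _).le, 1 / 8, by norm_num, ?_⟩
  rintro ξ ⟨hξ, hξn⟩
  have hξn' : ‖ξ‖ ≤ n := by simpa using hξn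
  obtain ⟨l, h1, h2⟩ := hξ (2 * n)
  have hl : ‖l‖ ≤ n := by
    refine le_of_tendsto h2.norm (Eventually.of_forall fun j => ?_)
    calc ‖ξ (e (2 * n, j, true))‖ ≤ ‖ξ‖ * ‖(e (2 * n, j, true) : L1 𝕜)‖ := ξ.le_opNorm _
      _ ≤ n := by rw [norm_e, mul_one]; exact hξn'
  have h3 : Tendsto (fun j : ℕ => RCLike.re (ξ (e (2 * n, j, false)))) atTop
      (𝓝 (RCLike.re (((((2 * n : ℕ) : 𝕜) + 1)⁻¹) * l))) :=
    ((RCLike.continuous_re (K := 𝕜)).tendsto _).comp h1
  have hn0 : (0 : ℝ) ≤ n := Nat.cast_nonneg n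
  have h4 : RCLike.re (((((2 * n : ℕ) : 𝕜) + 1)⁻¹) * l) ≤ 1 / 2 := by
    refine (RCLike.re_le_norm _).trans ?_
    rw [norm_mul, norm_inv]
    have h5 : ‖(((2 * n : ℕ) : 𝕜) + 1)‖ = 2 * n + 1 := by
      have : (((2 * n : ℕ) : 𝕜) + 1) = (((2 * n + 1 : ℝ)) : 𝕜) := by push_cast; ring
      rw [this, RCLike.norm_ofReal, abs_of_nonneg (by positivity)]
    rw [h5, inv_mul_le_iff₀ (by positivity)]
    linarith
  have h5 : ∀ᶠ j : ℕ in atTop, RCLike.re (ξ (e (2 * n, j, false))) < 1 / 2 + 1 / 8 :=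
    h3.eventually_lt_const (by linarith)
  filter_upwards [h5] with j hj
  have h6 : ‖(ζ - eta 𝕜) (e (2 * n, j, false))‖ < 1 / 4 := by
    refine lt_of_le_of_lt ((ζ - eta 𝕜).le_opNorm _) ?_
    rw [norm_e, mul_one]
    exact hcon
  have h7 : eta 𝕜 (e (2 * n, j, false)) = 1 := by
    rw [eta, fn_e]
    simp [h0]
  have h8 : |RCLike.re ((ζ - eta 𝕜) (e (2 * n, j, false)))| < 1 / 4 :=
    lt_of_le_of_lt (RCLike.abs_re_le_norm _) h6
  have h9 := (abs_lt.1 h8).1
  simp only [_root_.sub_apply, map_sub, h7, RCLike.one_re] at h9 ⊢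
  linarith

/-- A basic neighbourhood in a product of discrete spaces. -/
lemma exists_agree {β : Type} [TopologicalSpace β] {s : Set (ℕ → β)}
    (hs : (interior s).Nonempty) :
    ∃ (g : ℕ → β) (r : ℕ), ∀ g' : ℕ → β, (∀ k < r, g' k = g k) → g' ∈ s := by
  obtain ⟨g, hg⟩ := hs
  obtain ⟨J, u, hu, hJ⟩ := isOpen_pi_iff.1 (isOpen_interior (s := s)) g hg
  refine ⟨g, J.sup id + 1, fun g' hg' => interior_subset (hJ fun k hk => ?_)⟩
  have hk' : k ≤ J.sup id := Finset.le_sup (f := id) hk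
  rw [hg' k (by omega)]
  exact (hu k hk).2

lemma continuous_S {α : Type} [TopologicalSpace α] {C : ℝ} {f : α → Idx → ℝ}
    (hf : ∀ a i, |f a i| ≤ C) (hc : ∀ i, Continuous fun a => f a i) (x : L1 𝕜) :
    Continuous fun a => S (f a) x := by
  refine continuous_tsum (u := fun i => C * ‖x i‖) (fun i => (hc i).mul_const _)
    ((summ x).mul_left C) fun i a => ?_
  rw [Real.norm_eq_abs, abs_mul]
  exact mul_le_mul (hf a i) (RCLike.abs_re_le_norm _) (abs_nonneg _)
    ((abs_nonneg _).trans (hf a i))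

lemma tendsto_S {C : ℝ} {f : ℕ → Idx → ℝ} {f' : Idx → ℝ} (hf : ∀ n i, |f n i| ≤ C)
    (hc : ∀ i, Tendsto (fun n => f n i) atTop (𝓝 (f' i))) (x : L1 𝕜) :
    Tendsto (fun n => S (f n) x) atTop (𝓝 (S f' x)) := by
  refine tendsto_tsum_of_dominated_convergence (bound := fun i => C * ‖x i‖)
    ((summ x).mul_left C) (fun i => (hc i).mul_const _) (Eventually.of_forall fun n i => ?_)
  rw [Real.norm_eq_abs, abs_mul]
  exact mul_le_mul (hf n i) (RCLike.abs_re_le_norm _) (abs_nonneg _)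
    ((abs_nonneg _).trans (hf n i))

/-- Indicator function of the set of all `(k, j, false)` with `j < g k`. -/
def fg (g : ℕ → ℕ) (i : Idx) : ℝ := if i.2.2 = false ∧ i.2.1 < g i.1 then 1 else 0

lemma abs_fg (g : ℕ → ℕ) (i : Idx) : |fg g i| ≤ 1 := by
  unfold fg
  split_ifs <;> simp

lemma fg_cont (i : Idx) : Continuous fun g : ℕ → ℕ => fg g i := by
  have h : (fun g : ℕ → ℕ => fg g i) =
      (fun n : ℕ => if i.2.2 = false ∧ i.2.1 < n then (1 : ℝ) else 0) ∘ (fun g => g i.1) := rfl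
  rw [h]
  exact continuous_of_discreteTopology.comp (continuous_apply _)

/-- Indicator function of the set `Z` of all `(k, j, false)` with `k < r` and `g k ≤ j`. -/
def fz (g : ℕ → ℕ) (r : ℕ) (i : Idx) : ℝ :=
  if i.2.2 = false ∧ i.1 < r ∧ g i.1 ≤ i.2.1 then 1 else 0

lemma abs_fz (g : ℕ → ℕ) (r : ℕ) (i : Idx) : |fz g r i| ≤ 1 := by
  unfold fz
  split_ifs <;> simp

/-- The function `k + 1` on the set of all `(k, j, true)` with `k < r` and `j ∈ F`. -/
def fq (r : ℕ) (F : ℕ → Bool) (i : Idx) : ℝ :=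
  if i.2.2 = true ∧ i.1 < r ∧ F i.2.1 = true then (i.1 : ℝ) + 1 else 0

lemma abs_fq (r : ℕ) (F : ℕ → Bool) (i : Idx) : |fq r F i| ≤ r := by
  unfold fq
  split_ifs with h
  · rw [abs_of_nonneg (by positivity)]
    exact_mod_cast h.2.1
  · simp

lemma fq_cont (r : ℕ) (i : Idx) : Continuous fun F : ℕ → Bool => fq r F i := by
  have h : (fun F : ℕ → Bool => fq r F i) =
      (fun b : Bool => if i.2.2 = true ∧ i.1 < r ∧ b = true then (i.1 : ℝ) + 1 else 0) ∘
        (fun F => F i.2.1) := rfl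
  rw [h]
  exact continuous_of_discreteTopology.comp (continuous_apply _)

lemma S_add_smul (a b : ℝ) (f f' : Idx → ℝ) {C C' : ℝ} (hf : ∀ i, |f i| ≤ C)
    (hf' : ∀ i, |f' i| ≤ C') (x : L1 𝕜) :
    S (fun i => a * f i + b * f' i) x = a * S f x + b * S f' x := by
  unfold S
  rw [← tsum_mul_left, ← tsum_mul_left,
    ← ((summ_re f hf x).mul_left a).tsum_add ((summ_re f' hf' x).mul_left b)]
  exact tsum_congr fun i => by ring

lemma abs_comb (a b : ℝ) (f f' : Idx → ℝ) {C C' : ℝ} (hf : ∀ i, |f i| ≤ C)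
    (hf' : ∀ i, |f' i| ≤ C') (i : Idx) : |a * f i + b * f' i| ≤ |a| * C + |b| * C' := by
  refine (abs_add_le _ _).trans ?_
  rw [abs_mul, abs_mul]
  exact add_le_add (mul_le_mul_of_nonneg_left (hf i) (abs_nonneg _))
    (mul_le_mul_of_nonneg_left (hf' i) (abs_nonneg _))

lemma eta_mem : eta 𝕜 ∈ Ienv (Y 𝕜 : Set (StrongDual 𝕜 (L1 𝕜))) := by
  rw [mem_Ienv_iff]
  rintro ⟨x, hx, δ, hδ, h⟩
  -- the basic inequality
  have key : ∀ (f : Idx → ℝ) (C : ℝ) (hf : ∀ i, |f i| ≤ C),
      (fn f C hf : StrongDual 𝕜 (L1 𝕜)) ∈ Y 𝕜 →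
      ∀ᶠ n in atTop, S f (x n) ≤ S h0 (x n) - δ := by
    intro f C hf hm
    filter_upwards [h _ hm] with n hn
    rw [_root_.sub_apply, map_sub, eta, re_fn, re_fn] at hn
    linarith
  have hS0 : ∀ n, S h0 (x n) ≤ 1 := by
    intro n
    have h1 := (le_abs_self _).trans (abs_S_le h0 abs_h0 (x n))
    have h2 := hx n
    linarith
  -- first application of Baire's theorem
  let FM : ℕ → Set (ℕ → ℕ) := fun M => {g | ∀ m, M ≤ m → S (fg g) (x m) ≤ S h0 (x m) - δ}
  have hclosed : ∀ M, IsClosed (FM M) := by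
    intro M
    have : FM M = ⋂ m, ⋂ (_ : M ≤ m), {g | S (fg g) (x m) ≤ S h0 (x m) - δ} := by
      ext g
      simp [FM]
    rw [this]
    exact isClosed_iInter fun m => isClosed_iInter fun _ =>
      isClosed_le (continuous_S abs_fg fg_cont (x m)) continuous_const
  have hcover : ⋃ M, FM M = univ := by
    rw [eq_univ_iff_forall]
    intro g
    have hm : (fn (fg g) 1 (abs_fg g) : StrongDual 𝕜 (L1 𝕜)) ∈ Y 𝕜 := by
      apply fn_mem
      intro k
      refine ⟨0, ?_, ?_⟩
      · rw [mul_zero]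
        refine tendsto_const_nhds.congr' ?_
        filter_upwards [eventually_ge_atTop (g k)] with j hj
        simp only [fg]
        rw [if_neg]
        rintro ⟨-, h2⟩
        omega
      · refine tendsto_const_nhds.congr' (Eventually.of_forall fun j => ?_)
        simp [fg]
    obtain ⟨M, hM⟩ := eventually_atTop.1 (key _ _ _ hm)
    exact mem_iUnion.2 ⟨M, fun m hm => hM m hm⟩
  obtain ⟨M, hM⟩ := nonempty_interior_of_iUnion_of_closed hclosed hcover
  obtain ⟨g, r, hg⟩ := exists_agree hM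
  -- the mass on `Z`
  have hZ : ∀ m, M ≤ m → δ ≤ S (fz g r) (x m) := by
    intro m hm
    have h1 : Tendsto (fun N : ℕ => S (fg (fun k => if k < r then g k else N)) (x m)) atTop
        (𝓝 (S (fun i => 1 * h0 i + (-1) * fz g r i) (x m))) := by
      refine tendsto_S (fun N => abs_fg _) (fun i => ?_) (x m)
      obtain ⟨k, j, b⟩ := i
      refine tendsto_const_nhds.congr' ?_
      filter_upwards [eventually_gt_atTop j] with N hN
      simp only [fg, h0, fz]
      cases b with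
      | true => simp
      | false =>
        by_cases hk : k < r
        · by_cases hj : j < g k
          · simp [hk, hj]
          · simp [hk, hj, not_lt.1 hj]
        · simp [hk, hN]
    rw [S_add_smul 1 (-1) h0 (fz g r) abs_h0 (abs_fz g r)] at h1
    have h2 := le_of_tendsto h1 (Eventually.of_forall fun N =>
      hg (fun k => if k < r then g k else N) (fun k hk => by simp [hk]) m hm)
    linarith
  -- sets in the ultrafilter
  have hin : ∀ F : ℕ → Bool, {j | F j = true} ∈ (hyperfilter ℕ : Filter ℕ) →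
      ∀ᶠ m in atTop, S (fq r F) (x m) ≤ -δ / 2 := by
    intro F hF
    have hm : (fn (fun i => (2 / δ) * fz g r i + (2 / δ) * fq r F i) _
        (abs_comb (2 / δ) (2 / δ) (fz g r) (fq r F) (abs_fz g r) (abs_fq r F)) :
          StrongDual 𝕜 (L1 𝕜)) ∈ Y 𝕜 := by
      apply fn_mem
      intro k
      by_cases hk : k < r
      · refine ⟨(2 / δ) * (k + 1), ?_, ?_⟩
        · have hk1 : ((k : ℝ) + 1)⁻¹ * ((2 / δ) * (k + 1)) = 2 / δ := by
            field_simp
          rw [hk1]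
          refine tendsto_const_nhds.congr' ?_
          filter_upwards [eventually_ge_atTop (g k)] with j hj
          simp [fz, fq, hk, hj]
        · refine tendsto_const_nhds.congr' ?_
          filter_upwards [hF] with j hj
          have hj' : F j = true := hj
          simp [fz, fq, hk, hj']
      · refine ⟨0, ?_, ?_⟩
        · rw [mul_zero]
          refine tendsto_const_nhds.congr' (Eventually.of_forall fun j => ?_)
          simp [fz, fq, hk]
        · refine tendsto_const_nhds.congr' (Eventually.of_forall fun j => ?_)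
          simp [fz, fq, hk]
    filter_upwards [key _ _ _ hm, eventually_ge_atTop M] with m h1 h2
    rw [S_add_smul _ _ _ _ (abs_fz g r) (abs_fq r F)] at h1
    have h3 := hZ m h2
    have h4 := hS0 m
    have h5 : (2 / δ) * (S (fz g r) (x m) + S (fq r F) (x m)) ≤ 1 := by linarith
    have h6 : S (fz g r) (x m) + S (fq r F) (x m) ≤ δ / 2 := by
      have h7 := mul_le_mul_of_nonneg_left h5 (by positivity : (0 : ℝ) ≤ δ / 2)
      have h8 : δ / 2 * ((2 / δ) * (S (fz g r) (x m) + S (fq r F) (x m))) =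
          S (fz g r) (x m) + S (fq r F) (x m) := by
        field_simp
      rw [h8] at h7
      linarith
    linarith
  have hout : ∀ F : ℕ → Bool, {j | F j = false} ∈ (hyperfilter ℕ : Filter ℕ) →
      ∀ᶠ m in atTop, -δ / 4 ≤ S (fq r F) (x m) := by
    intro F hF
    have hm : (fn (fun i => (-(4 / δ)) * fq r F i + 0 * fq r F i) _
        (abs_comb (-(4 / δ)) 0 (fq r F) (fq r F) (abs_fq r F) (abs_fq r F)) :
          StrongDual 𝕜 (L1 𝕜)) ∈ Y 𝕜 := by
      apply fn_mem
      intro k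
      refine ⟨0, ?_, ?_⟩
      · rw [mul_zero]
        refine tendsto_const_nhds.congr' (Eventually.of_forall fun j => ?_)
        simp [fq]
      · refine tendsto_const_nhds.congr' ?_
        filter_upwards [hF] with j hj
        have hj' : F j = false := hj
        simp [fq, hj']
    filter_upwards [key _ _ _ hm] with m h1
    rw [S_add_smul _ _ _ _ (abs_fq r F) (abs_fq r F)] at h1
    have h4 := hS0 m
    have h5 : (-(4 / δ)) * S (fq r F) (x m) ≤ 1 := by linarith
    have h7 := mul_le_mul_of_nonneg_left h5 (by positivity : (0 : ℝ) ≤ δ / 4)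
    have h8 : δ / 4 * ((-(4 / δ)) * S (fq r F) (x m)) = - S (fq r F) (x m) := by
      field_simp
    rw [h8] at h7
    linarith
  -- second application of Baire's theorem
  let GM : ℕ ⊕ ℕ → Set (ℕ → Bool) := fun M => match M with
    | Sum.inl M => {F | ∀ m, M ≤ m → S (fq r F) (x m) ≤ -δ / 2}
    | Sum.inr M => {F | ∀ m, M ≤ m → -δ / 4 ≤ S (fq r F) (x m)}
  have hclosed' : ∀ M, IsClosed (GM M) := by
    rintro (M | M)
    · have : GM (Sum.inl M) = ⋂ m, ⋂ (_ : M ≤ m), {F | S (fq r F) (x m) ≤ -δ / 2} := by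
        ext F
        simp [GM]
      rw [this]
      exact isClosed_iInter fun m => isClosed_iInter fun _ =>
        isClosed_le (continuous_S (abs_fq r) (fq_cont r) (x m)) continuous_const
    · have : GM (Sum.inr M) = ⋂ m, ⋂ (_ : M ≤ m), {F | -δ / 4 ≤ S (fq r F) (x m)} := by
        ext F
        simp [GM]
      rw [this]
      exact isClosed_iInter fun m => isClosed_iInter fun _ =>
        isClosed_le continuous_const (continuous_S (abs_fq r) (fq_cont r) (x m))
  have hcover' : ⋃ M, GM M = univ := by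
    rw [eq_univ_iff_forall]
    intro F
    by_cases hF : {j | F j = true} ∈ (hyperfilter ℕ : Filter ℕ)
    · obtain ⟨M, hM⟩ := eventually_atTop.1 (hin F hF)
      exact mem_iUnion.2 ⟨Sum.inl M, fun m hm => hM m hm⟩
    · have hF' : {j | F j = false} ∈ (hyperfilter ℕ : Filter ℕ) := by
        have h1 := (hyperfilter ℕ).compl_mem_iff_notMem.2 hF
        refine mem_of_superset h1 fun j hj => ?_
        simpa using hj
      obtain ⟨M, hM⟩ := eventually_atTop.1 (hout F hF')
      exact mem_iUnion.2 ⟨Sum.inr M, fun m hm => hM m hm⟩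
  obtain ⟨M', hM'⟩ := nonempty_interior_of_iUnion_of_closed hclosed' hcover'
  obtain ⟨F0, r', hF0⟩ := exists_agree hM'
  have hfin : ∀ b : Bool, {j : ℕ | (if j < r' then F0 j else b) = b} ∈
      (hyperfilter ℕ : Filter ℕ) := by
    intro b
    apply mem_hyperfilter_of_finite_compl
    refine (Set.finite_lt_nat r').subset fun j hj => ?_
    by_contra hcon
    apply hj
    have : ¬ j < r' := hcon
    simp [this]
  rcases M' with M' | M'
  · have h1 := hF0 (fun j => if j < r' then F0 j else false) (fun k hk => by simp [hk])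
    obtain ⟨N, hN⟩ := eventually_atTop.1
      (hout (fun j => if j < r' then F0 j else false) (hfin false))
    have h2 := h1 (max M' N) (le_max_left _ _)
    have h3 := hN (max M' N) (le_max_right _ _)
    linarith
  · have h1 := hF0 (fun j => if j < r' then F0 j else true) (fun k hk => by simp [hk])
    obtain ⟨N, hN⟩ := eventually_atTop.1
      (hin (fun j => if j < r' then F0 j else true) (hfin true))
    have h2 := h1 (max M' N) (le_max_left _ _)
    have h3 := hN (max M' N) (le_max_right _ _)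
    linarith

/-- `Ienv_b A`, the union of the (I)-envelopes of the sets `A ∩ n B`. -/
def IenvB {𝕜 X : Type} [RCLike 𝕜] [NormedAddCommGroup X] [NormedSpace 𝕜 X]
    (A : Set (StrongDual 𝕜 X)) : Set (StrongDual 𝕜 X) :=
  ⋃ n : ℕ, Ienv (A ∩ Metric.closedBall 0 (n : ℝ))

/-- There is a linear subspace `Y` of the dual of `X` such that `Ienv_b Y` is not norm-dense in
`Ienv Y`. -/
def HasBadSubspace (𝕜 X : Type) [RCLike 𝕜] [NormedAddCommGroup X] [NormedSpace 𝕜 X] : Prop :=
  ∃ Y : Submodule 𝕜 (StrongDual 𝕜 X),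
    ¬ (Ienv (Y : Set (StrongDual 𝕜 X)) ⊆ closure (IenvB (Y : Set (StrongDual 𝕜 X))))

/-- **The bounded part of the (I)-envelope is not always norm-dense**, not even for linear
subspaces of `ℓ_∞ = ℓ_1^*`, in the real and in the complex case. -/
theorem result (𝕜 : Type) [RCLike 𝕜] :
    HasBadSubspace 𝕜 (lp (fun _ : ℕ × ℕ × Bool => 𝕜) 1) := by
  refine ⟨Y 𝕜, fun hcon => ?_⟩
  have h1 := hcon (eta_mem (𝕜 := 𝕜))
  rw [Metric.mem_closure_iff] at h1
  obtain ⟨ζ, hζ, hd⟩ := h1 (1 / 4) (by norm_num)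
  obtain ⟨n, hn⟩ := mem_iUnion.1 hζ
  have h2 := far hn
  rw [dist_comm, dist_eq_norm] at hd
  linarith

end Pool.Agent.Results.MP_a5b52c_an.SubspaceNotDense
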